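import Pool.Agent.Lib_MP_3ec6ac.Field

open scoped ContDiff

namespace Pool.Agent.Results.MP_3ec6ac_an.OrthJacLimitCycle

/-- `O` is (the image of) a non-constant periodic orbit of the planar vector field
`P ∂x + Q ∂y`: it is the range of a solution defined for all times, which is periodic
and not constant. -/
def IsPeriodicOrbit (P Q : ℝ × ℝ → ℝ) (O : Set (ℝ × ℝ)) : Prop :=
  ∃ γ : ℝ → ℝ × ℝ, (∀ t, HasDerivAt γ (P (γ t), Q (γ t)) t) ∧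
    (∃ T : ℝ, 0 < T ∧ ∀ t, γ (t + T) = γ t) ∧ (∃ t, γ t ≠ γ 0) ∧ Set.range γ = O

/-- `O` is a limit cycle of `P ∂x + Q ∂y`: a non-constant periodic orbit which has an open
neighbourhood containing no other periodic orbit. -/
def IsLimitCycle (P Q : ℝ × ℝ → ℝ) (O : Set (ℝ × ℝ)) : Prop :=
  IsPeriodicOrbit P Q O ∧ ∃ U : Set (ℝ × ℝ), IsOpen U ∧ O ⊆ U ∧
    ∀ O' : Set (ℝ × ℝ), IsPeriodicOrbit P Q O' → O' ⊆ U → O' = O

/-- There is a smooth planar vector field with orthogonal Jacobian columns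
(`P_x P_y + Q_x Q_y = 0` on the whole plane) that has a limit cycle. -/
theorem result : ∃ P Q : ℝ × ℝ → ℝ, ContDiff ℝ ∞ P ∧ ContDiff ℝ ∞ Q ∧
    (∀ z : ℝ × ℝ, fderiv ℝ P z (1, 0) * fderiv ℝ P z (0, 1) +
      fderiv ℝ Q z (1, 0) * fderiv ℝ Q z (0, 1) = 0) ∧
    ∃ O : Set (ℝ × ℝ), IsLimitCycle P Q O := by
  obtain ⟨φ, U, hIC, hper, hne, hU, hφU, hiso⟩ := Pool.Agent.LibMP3ec6ac.dataf.main
  refine ⟨Pool.Agent.LibMP3ec6ac.Pf, Pool.Agent.LibMP3ec6ac.Qf,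
    Pool.Agent.LibMP3ec6ac.Pf_contDiff, Pool.Agent.LibMP3ec6ac.Qf_contDiff,
    Pool.Agent.LibMP3ec6ac.orth, Set.range φ, ⟨φ, hIC, hper, hne, rfl⟩, U, hU, hφU, ?_⟩
  rintro O' ⟨ψ, hψ, hψper, -, rfl⟩ hO'
  exact hiso ψ hψ hψper hO'

end Pool.Agent.Results.MP_3ec6ac_an.OrthJacLimitCycle
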